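import Pool.Agent.H914R2.ExtOp
import Pool.Agent.N996.BP.Defs

/-!
# Project HJ (helper204): the operator `1 ⊗ u` is given by the class of the graph, main part
-/

set_option autoImplicit false

open CategoryTheory AlgebraicGeometry TensorProduct

universe u v

namespace Pool.Agent.N281.HJ

open Module
open Pool.Agent.H914 Pool.Agent.H914.VarClass Pool.Agent.H914.VarClass.Obj
  Pool.Agent.H914.WeilCohomology
open Pool.Agent.Y133.Half (pw)
open Pool.Agent.N996.BP (IsCoordinateMap pr)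

section gen

variable {k : Type u} [Field k] {𝒱 : VarClass k} {ops : CycleOps 𝒱}
  {W : WeilCohomology.{u, v} ops} {X Y : 𝒱.Obj}

/-- External products of operators which preserve the degrees preserve the degrees
(after helper536). -/
lemma extOp_gr {s : Module.End W.K (W.H X)} {t : Module.End W.K (W.H Y)}
    (h : ∀ i, ∀ x ∈ W.gr X i, s x ∈ W.gr X i) (h' : ∀ i, ∀ x ∈ W.gr Y i, t x ∈ W.gr Y i) :
    ∀ i, ∀ x ∈ W.gr (X.prod Y) i, extOp W s t x ∈ W.gr (X.prod Y) i := by
  intro i x hx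
  have key : ∀ c : W.H (X.prod Y), ∀ i, proj (W.isInternal (X.prod Y)) i (extOp W s t c) =
      extOp W s t (proj (W.isInternal (X.prod Y)) i c) := by
    intro c i
    refine W.kunneth_induction (p := fun c => proj (W.isInternal (X.prod Y)) i (extOp W s t c) =
      extOp W s t (proj (W.isInternal (X.prod Y)) i c)) ?_ ?_ c
    · intro a b ha hb
      rw [map_add, map_add, ha, hb, map_add, map_add]
    · intro a b p hp q hq
      have h1 : W.map (fst X Y) p * W.map (snd X Y) q ∈ W.gr (X.prod Y) (a + b) :=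
        W.mul_mem (W.map_mem _ hp) (W.map_mem _ hq)
      have h2 : extOp W s t (W.map (fst X Y) p * W.map (snd X Y) q) ∈
          W.gr (X.prod Y) (a + b) := by
        rw [extOp_tmul]
        exact W.mul_mem (W.map_mem _ (h _ _ hp)) (W.map_mem _ (h' _ _ hq))
      by_cases hi : a + b = i
      · subst hi
        rw [proj_same _ h1, proj_same _ h2]
      · rw [proj_ne _ h1 hi, proj_ne _ h2 hi, map_zero]
  have h1 := key x i
  rw [proj_same _ hx] at h1
  rw [← h1]
  exact proj_mem _ _ _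

/-- The degree of the class of the diagonal. -/
lemma diag_mem (W : WeilCohomology.{u, v} ops) (X : 𝒱.Obj) :
    W.push (diag X) 1 ∈ W.gr (X.prod X) (2 * X.dim) := by
  have h := W.push_mem (diag X) (W.one_mem X)
  have e : ((0 : ℕ) : ℤ) + 2 * (((X.prod X).dim : ℤ) - X.dim) = ((2 * X.dim : ℕ) : ℤ) := by
    rw [dim_prod]; push_cast; ring
  rwa [e, grZ_natCast] at h

lemma corr_tmul {q j : ℕ} (s : W.H X) {t : W.H Y} {b : W.H X} (ht : t ∈ W.gr Y q)
    (hb : b ∈ W.gr X j) :
    W.corr (W.map (fst X Y) s * W.map (snd X Y) t) b =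
      (-1 : W.K) ^ (q * j) • (W.tr X (s * b) • t) := by
  rw [corr_apply, mul_assoc, W.comm (W.map_mem (snd X Y) ht) (W.map_mem (fst X Y) hb),
    mul_smul_comm, ← mul_assoc, ← map_mul, map_smul, push_snd]

lemma corr_extOp {t : Module.End W.K (W.H X)} (ht : ∀ i, ∀ a ∈ W.gr X i, t a ∈ W.gr X i)
    (c : W.H (X.prod X)) {j : ℕ} {b : W.H X} (hb : b ∈ W.gr X j) :
    W.corr (extOp W (1 : Module.End W.K (W.H X)) t c) b = t (W.corr c b) := by
  refine W.kunneth_induction (p := fun c =>
    W.corr (extOp W (1 : Module.End W.K (W.H X)) t c) b = t (W.corr c b)) ?_ ?_ c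
  · intro c d hc hd
    rw [map_add, corr_add, LinearMap.add_apply, hc, hd, corr_add, LinearMap.add_apply, map_add]
  · intro p q x _ y hy
    rw [extOp_tmul, corr_tmul _ (ht _ _ hy) hb, corr_tmul _ hy hb, map_smul, map_smul]
    rfl

/-- The two other maps of the cartesian square. -/
noncomputable def ff (Y X : 𝒱.Obj) : (Y.prod X).prod X ⟶ Y.prod X :=
  Obj.lift (fst (Y.prod X) X ≫ fst Y X) (snd (Y.prod X) X)

/-- The projection to the last two factors. -/
noncomputable def hh (Y X : 𝒱.Obj) : (Y.prod X).prod X ⟶ X.prod X :=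
  Obj.lift (fst (Y.prod X) X ≫ snd Y X) (snd (Y.prod X) X)

lemma ff_fst (Y X : 𝒱.Obj) : ff Y X ≫ fst Y X = fst (Y.prod X) X ≫ fst Y X := Obj.lift_fst _ _
lemma ff_snd (Y X : 𝒱.Obj) : ff Y X ≫ snd Y X = snd (Y.prod X) X := Obj.lift_snd _ _
lemma hh_fst (Y X : 𝒱.Obj) : hh Y X ≫ fst X X = fst (Y.prod X) X ≫ snd Y X := Obj.lift_fst _ _
lemma hh_snd (Y X : 𝒱.Obj) : hh Y X ≫ snd X X = snd (Y.prod X) X := Obj.lift_snd _ _

lemma map_ff_fst (a : W.H Y) :
    W.map (ff Y X) (W.map (fst Y X) a) = W.map (fst (Y.prod X) X) (W.map (fst Y X) a) := by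
  rw [← W.map_comp, ff_fst, W.map_comp]

lemma map_ff_snd (b : W.H X) :
    W.map (ff Y X) (W.map (snd Y X) b) = W.map (snd (Y.prod X) X) b := by
  rw [← W.map_comp, ff_snd]

lemma map_hh_fst (b : W.H X) :
    W.map (hh Y X) (W.map (fst X X) b) = W.map (fst (Y.prod X) X) (W.map (snd Y X) b) := by
  rw [← W.map_comp, hh_fst, W.map_comp]

lemma map_hh_snd (b : W.H X) :
    W.map (hh Y X) (W.map (snd X X) b) = W.map (snd (Y.prod X) X) b := by
  rw [← W.map_comp, hh_snd]

lemma push_mid {p : ℕ} {s : W.H X} (hs : s ∈ W.gr X p) :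
    W.push (ff Y X) (W.map (fst (Y.prod X) X) (W.map (snd Y X) s)) =
      W.tr X s • (1 : W.H (Y.prod X)) := by
  apply W.tr_ext
  intro c
  rw [W.tr_push, smul_mul_assoc, one_mul, map_smul, smul_eq_mul]
  refine W.kunneth_induction (p := fun c =>
    W.tr _ (W.map (fst (Y.prod X) X) (W.map (snd Y X) s) * W.map (ff Y X) c) =
      W.tr X s * W.tr _ c) ?_ ?_ c
  · intro a b ha hb
    rw [map_add, mul_add, map_add, ha, hb, map_add, mul_add]
  · intro i j a ha b _
    rw [map_mul (W.map (ff Y X)), map_ff_fst, map_ff_snd, ← mul_assoc, ← map_mul, W.tr_prod,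
      W.tr_prod, W.comm (W.map_mem (snd Y X) hs) (W.map_mem (fst Y X) ha), map_smul, W.tr_prod,
      smul_eq_mul]
    by_cases hp : p = 2 * X.dim
    · have h1 : (-1 : W.K) ^ (p * i) = 1 := by
        rw [hp, mul_assoc, pow_mul]
        simp
      rw [h1]
      ring
    · rw [W.tr_eq_zero hs hp]
      ring

/-- Base change. -/
lemma base_ff (c : W.H (X.prod X)) :
    W.push (ff Y X) (W.map (hh Y X) c) = W.map (snd Y X) (W.push (snd X X) c) := by
  refine W.kunneth_induction (p := fun c =>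
    W.push (ff Y X) (W.map (hh Y X) c) = W.map (snd Y X) (W.push (snd X X) c)) ?_ ?_ c
  · intro a b ha hb
    rw [map_add, map_add, ha, hb, map_add, map_add]
  · intro i j s hs t _
    rw [map_mul (W.map (hh Y X)), map_hh_fst, map_hh_snd, ← map_ff_snd (Y := Y), W.push_mul,
      push_mid hs, push_snd, map_smul, smul_mul_assoc, one_mul]

/-- The operator `1 ⊗ t` is the push-forward of the product with the class `G`. -/
lemma push_graph {t : Module.End W.K (W.H X)} (ht : ∀ i, ∀ a ∈ W.gr X i, t a ∈ W.gr X i)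
    {d : ℕ} {G : W.H (X.prod X)} (hG : G ∈ W.gr (X.prod X) (2 * d))
    (hc : ∀ j, ∀ b ∈ W.gr X j, W.corr G b = t b) (x : W.H (Y.prod X)) :
    W.push (ff Y X) (W.map (hh Y X) G * W.map (fst (Y.prod X) X) x) =
      extOp W (1 : Module.End W.K (W.H Y)) t x := by
  refine W.kunneth_induction (p := fun x =>
    W.push (ff Y X) (W.map (hh Y X) G * W.map (fst (Y.prod X) X) x) =
      extOp W (1 : Module.End W.K (W.H Y)) t x) ?_ ?_ x
  · intro a b ha hb
    rw [map_add, mul_add, map_add, ha, hb, map_add]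
  · intro i j a ha b hb
    have e1 : W.map (hh Y X) G * W.map (fst (Y.prod X) X)
        (W.map (fst Y X) a * W.map (snd Y X) b) =
        W.map (ff Y X) (W.map (fst Y X) a) * W.map (hh Y X) (G * W.map (fst X X) b) := by
      rw [map_mul (W.map (fst (Y.prod X) X)), ← map_ff_fst, ← map_hh_fst, ← mul_assoc,
        W.even_comm (W.map_mem _ hG), mul_assoc, ← map_mul]
    rw [e1, W.comm (W.map_mem _ (W.map_mem _ ha))
      (W.map_mem _ (W.mul_mem hG (W.map_mem _ hb))), map_smul, W.push_mul, base_ff]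
    have e2 : W.push (snd X X) (G * W.map (fst X X) b) = t b := hc j b hb
    rw [e2, W.comm (W.map_mem _ (ht j b hb)) (W.map_mem _ ha), smul_smul, extOp_tmul]
    have e3 : (-1 : W.K) ^ (i * (2 * d + j)) * (-1 : W.K) ^ (j * i) = 1 := by
      rw [← pow_add]
      have : i * (2 * d + j) + j * i = 2 * (i * d + i * j) := by ring
      rw [this, pow_mul]
      simp
    rw [e3, one_smul]
    rfl

end gen

section cm

variable {k : Type u} [Field k] {𝒱 : VarClass k}

lemma pr_le (X : 𝒱.Obj) (n i : ℕ) (h : i ≤ n) :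
    pr X (n + 1) i = fst (pw X n) X ≫ pr X n i := by
  rw [pr, if_pos h]
  rfl

lemma pr_last (X : 𝒱.Obj) (n : ℕ) : pr X (n + 1) (n + 1) = snd (pw X n) X := by
  rw [pr, if_neg (by omega)]

lemma cm_g (X : 𝒱.Obj) (n : ℕ) :
    IsCoordinateMap (n := n + 1) (m := n + 2) (fst (pw X (n + 1)) X) := by
  intro i hi
  exact ⟨i, by omega, (pr_le X (n + 1) i hi).symm⟩

lemma cm_f (X : 𝒱.Obj) (n : ℕ) :
    IsCoordinateMap (X := X) (n := n + 1) (m := n + 2) (ff (pw X n) X) := by
  intro i hi
  rcases Nat.lt_or_ge n i with h | h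
  · have : i = n + 1 := by omega
    subst this
    refine ⟨n + 2, le_refl _, ?_⟩
    rw [pr_last, pr_last]
    exact ff_snd _ _
  · refine ⟨i, by omega, ?_⟩
    rw [pr_le X n i h, pr_le X (n + 1) i (by omega), pr_le X n i h]
    have e := ff_fst (pw X n) X
    calc ff (pw X n) X ≫ fst (pw X n) X ≫ pr X n i
        = (ff (pw X n) X ≫ fst (pw X n) X) ≫ pr X n i := (Category.assoc _ _ _).symm
      _ = (fst ((pw X n).prod X) X ≫ fst (pw X n) X) ≫ pr X n i := by rw [e]
      _ = _ := Category.assoc _ _ _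

lemma cm_h (X : 𝒱.Obj) (n : ℕ) :
    IsCoordinateMap (X := X) (n := 1) (m := n + 2) (hh (pw X n) X) := by
  intro i hi
  rcases Nat.lt_or_ge 0 i with h | h
  · have : i = 1 := by omega
    subst this
    refine ⟨n + 2, le_refl _, ?_⟩
    rw [pr_last X 0, pr_last]
    exact hh_snd _ _
  · have : i = 0 := by omega
    subst this
    refine ⟨n + 1, by omega, ?_⟩
    rw [pr_le X 0 0 (le_refl _), pr_le X (n + 1) (n + 1) (le_refl _), pr_last]
    have e := hh_fst (pw X n) X
    calc hh (pw X n) X ≫ fst (pw X 0) X ≫ pr X 0 0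
        = (hh (pw X n) X ≫ fst X X) ≫ 𝟙 X := (Category.assoc _ _ _).symm
      _ = hh (pw X n) X ≫ fst X X := Category.comp_id _
      _ = _ := e

end cm

/-- The statement `S_NA` with the definitions of `lastOp` and `graph` unfolded. -/
theorem na_main {k : Type u} [Field k] {𝒱 : VarClass k} {ops : CycleOps 𝒱}
    (W : WeilCohomology.{u, v} ops) (Y X : 𝒱.Obj) (i : ℕ) (z : W.H (Y.prod X))
    (hz : z ∈ W.gr (Y.prod X) (2 * i)) (x : W.H (Y.prod X))
    (t : Module.End W.K (W.H X)) (ht : ∀ i, ∀ a ∈ W.gr X i, t a ∈ W.gr X i) :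
    W.tr (Y.prod X) (z * extOp W (1 : Module.End W.K (W.H Y)) t x) =
      W.tr ((Y.prod X).prod X)
        (W.map (hh Y X) (extOp W (1 : Module.End W.K (W.H X)) t (W.push (diag X) 1)) *
          (W.map (ff Y X) z * W.map (fst (Y.prod X) X) x)) := by
  have hG : extOp W (1 : Module.End W.K (W.H X)) t (W.push (diag X) 1) ∈
      W.gr (X.prod X) (2 * X.dim) :=
    extOp_gr (fun _ _ h => h) ht _ _ (diag_mem W X)
  have hc : ∀ j, ∀ b ∈ W.gr X j,
      W.corr (extOp W (1 : Module.End W.K (W.H X)) t (W.push (diag X) 1)) b = t b := by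
    intro j b hb
    rw [corr_extOp ht _ hb, corr_diag, one_mul]
  rw [W.even_comm hz, ← push_graph ht hG hc x, W.tr_push, mul_assoc,
    W.even_comm (W.map_mem _ hz)]

end Pool.Agent.N281.HJ
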