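import Pool.Agent.N204.HJ.Stm2
import Pool.Agent.N281.HJ.NAa

/-!
# Project HJ (helper204): the statement S_NA
-/

open CategoryTheory AlgebraicGeometry TensorProduct

universe u

namespace Pool.Agent.N281.HJ

open Pool.Agent.H914 Pool.Agent.H914.VarClass Pool.Agent.H914.VarClass.Obj
  Pool.Agent.H914.WeilCohomology
open Pool.Agent.Y133.Half (pw)

/-- The operator `1 ⊗ u` is given by the class of the graph. -/
theorem na : Pool.Agent.N204.HJ.S_NA.{u} := by
  intro k _ 𝒱 ops W X n
  refine ⟨ff (pw X n) X, fst (pw X (n + 1)) X, hh (pw X n) X, cm_f X n, cm_g X n, cm_h X n, ?_⟩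
  intro i j z hz x _ t ht
  exact na_main W (pw X n) X i z hz x t ht

end Pool.Agent.N281.HJ
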